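import Mathlib
import Pool.Agent.Helper591.CyclicZero

/-!
# Maximum zero-`h`-sum-free sets in cyclic groups

For all positive integers `h` and `n`,
`τ(ℤ_n, h) = v_h(n, h) = max_{d ∣ n} (⌊(d - 1 - gcd(d,h)) / h⌋ + 1) · n / d`.
-/

namespace Pool.Agent.Results.MP_7a9645_co.FullQ1

/-- The `h`-fold sumset `hA` of all sums `a₁ + ⋯ + a_h` with `a_i ∈ A` (repetition allowed). -/
def hFold {n : ℕ} (h : ℕ) (A : Finset (ZMod n)) : Set (ZMod n) :=
  {s | ∃ a : Fin h → ZMod n, (∀ i, a i ∈ A) ∧ ∑ i, a i = s}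

/-- The set of all sizes of zero-`h`-sum-free subsets of `ℤ_n`. -/
def sizes (n h : ℕ) : Set ℕ :=
  {k | ∃ A : Finset (ZMod n), (0 : ZMod n) ∉ hFold h A ∧ A.card = k}

/-- `τ(ℤ_n, h)`: the largest size of a zero-`h`-sum-free subset of `ℤ_n`. -/
noncomputable def tau (n h : ℕ) : ℕ := sSup (sizes n h)

/-- The numbers `(⌊(d - 1 - gcd(d,g)) / h⌋ + 1) · n/d`, for `d` a positive divisor of `n`. -/
def divisorValues (g n h : ℕ) : Set ℤ :=
  {x | ∃ d : ℕ, 0 < d ∧ d ∣ n ∧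
    x = (⌊((d : ℚ) - 1 - (Nat.gcd d g : ℚ)) / (h : ℚ)⌋ + 1) * ((n / d : ℕ) : ℤ)}

/-- `v_g(n, h)`: the maximum of the numbers in `divisorValues g n h`. -/
noncomputable def v (g n h : ℕ) : ℤ := sSup (divisorValues g n h)

open Pool.Agent.Helper591.Kneser Pool.Agent.Helper591.CyclicZero
open scoped Pointwise

theorem floor_eq (h d : ℕ) (g : ℕ) :
    ⌊((d : ℚ) - 1 - (g : ℚ)) / (h : ℚ)⌋ = ((d : ℤ) - 1 - (g : ℤ)) / (h : ℤ) := by
  have e : ((d : ℚ) - 1 - (g : ℚ)) / (h : ℚ) = (((d : ℤ) - 1 - (g : ℤ) : ℤ) : ℚ) / ((h : ℕ) : ℚ) := by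
    push_cast; rfl
  rw [e, Rat.floor_intCast_div_natCast]

theorem value_eq (h d : ℕ) :
    (⌊((d : ℚ) - 1 - (Nat.gcd d h : ℚ)) / (h : ℚ)⌋ + 1) = val h d 0 := by
  rw [floor_eq]
  simp [val]

theorem exists_fun_of_mem_sm {G : Type*} [AddCommGroup G] [DecidableEq G] (A : Finset G) (k : ℕ) :
    ∀ s ∈ sm k A, ∃ a : Fin k → G, (∀ i, a i ∈ A) ∧ ∑ i, a i = s := by
  induction k with
  | zero =>
    intro s hs
    have hs0 : s = 0 := by simpa [sm] using hs
    exact ⟨fun i => 0, fun i => i.elim0, by simp [hs0]⟩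
  | succ k ih =>
    intro s hs
    have hs' : s ∈ sm k A + A := hs
    rw [Finset.mem_add] at hs'
    obtain ⟨u, hu, w, hw, rfl⟩ := hs'
    obtain ⟨a, ha, hsum⟩ := ih u hu
    refine ⟨Fin.snoc a w, ?_, ?_⟩
    · intro i
      refine Fin.lastCases ?_ (fun j => ?_) i
      · rw [Fin.snoc_last]; exact hw
      · rw [Fin.snoc_castSucc]; exact ha j
    · rw [Fin.sum_univ_castSucc, Fin.snoc_last]
      simp only [Fin.snoc_castSucc]
      rw [hsum]

/-- Upper bound. -/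
theorem upper {n h : ℕ} (hh : 0 < h) (hn : 0 < n) {k : ℕ} (hk : k ∈ sizes n h) :
    ∃ x ∈ divisorValues h n h, (k : ℤ) ≤ x := by
  obtain ⟨A, hA, rfl⟩ := hk
  have : NeZero n := ⟨hn.ne'⟩
  rcases Finset.eq_empty_or_nonempty A with rfl | hne
  · refine ⟨_, ⟨1, one_pos, one_dvd n, rfl⟩, ?_⟩
    rw [value_eq]
    have h1 : (0 : ℤ) ≤ val h 1 0 := by
      have := val_lower (h := h) (d := 1) hh 0
      simp only [Nat.gcd_one_left, Nat.cast_one, Int.zero_emod] at this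
      by_contra hneg
      push Not at hneg
      have hv : val h 1 0 ≤ -1 := by omega
      have hhZ : (1 : ℤ) ≤ h := by exact_mod_cast hh
      nlinarith
    rw [Finset.card_empty]
    exact mul_nonneg h1 (Int.natCast_nonneg _)
  · have hc : ((0 : ℤ) : ZMod n) ∉ sm h A := by
      intro hmem
      obtain ⟨a, ha, hs⟩ := exists_fun_of_mem_sm A h _ hmem
      apply hA
      exact ⟨a, ha, by rw [hs]; simp⟩
    obtain ⟨d, hd0, hdn, hle⟩ := main_bound (h + n) h n le_rfl hh 0 A hne hc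
    exact ⟨_, ⟨d, hd0, hdn, rfl⟩, by rw [value_eq]; exact hle⟩

/-- Construction: preimages of intervals modulo `d`. -/
theorem construct {n h d l : ℕ} (hh : 0 < h) (hn : 0 < n) (hd0 : 0 < d) (hdn : d ∣ n) (hl : 1 ≤ l)
    (hle : (h : ℤ) * (l - 1) ≤ (d : ℤ) - 1 - Nat.gcd d h) :
    ∃ A : Finset (ZMod n), (0 : ZMod n) ∉ hFold h A ∧ A.card = l * (n / d) := by
  classical
  have : NeZero n := ⟨hn.ne'⟩
  have hgpos := gcd_pos_int (d := d) hh
  have hhZ : (1 : ℤ) ≤ h := by exact_mod_cast hh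
  have hlZ : (1 : ℤ) ≤ l := by exact_mod_cast hl
  have hld : (l : ℤ) ≤ d := by nlinarith
  have hbez := Nat.gcd_eq_gcd_ab d h
  set a : ℤ := Nat.gcdB d h with ha
  have hna : (d : ℤ) * ((n / d : ℕ) : ℤ) = n := by exact_mod_cast Nat.mul_div_cancel' hdn
  set F : ℕ × ℕ → ZMod n := fun z => ((a + z.1 + d * z.2 : ℤ) : ZMod n) with hF
  refine ⟨(Finset.range l ×ˢ Finset.range (n / d)).image F, ?_, ?_⟩
  · rintro ⟨f, hf, hsum⟩
    have hf' : ∀ i, ∃ z : ℕ × ℕ, z.1 < l ∧ F z = f i := by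
      intro i
      have := hf i
      rw [Finset.mem_image] at this
      obtain ⟨z, hz, hzf⟩ := this
      rw [Finset.mem_product, Finset.mem_range, Finset.mem_range] at hz
      exact ⟨z, hz.1, hzf⟩
    choose z hz1 hz2 using hf'
    have hs : (((∑ i, (a + (z i).1 + d * (z i).2 : ℤ)) : ℤ) : ZMod n) = 0 := by
      rw [Int.cast_sum, ← hsum]
      exact Finset.sum_congr rfl (fun i _ => hz2 i)
    rw [ZMod.intCast_zmod_eq_zero_iff_dvd] at hs
    have hdvd : (d : ℤ) ∣ ∑ i, (a + (z i).1 + d * (z i).2 : ℤ) := by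
      have : (d : ℤ) ∣ n := by exact_mod_cast hdn
      exact this.trans hs
    have hexp : ∑ i, (a + (z i).1 + d * (z i).2 : ℤ)
        = (h : ℤ) * a + ∑ i, ((z i).1 : ℤ) + d * ∑ i, ((z i).2 : ℤ) := by
      rw [Finset.sum_add_distrib, Finset.sum_add_distrib, Finset.sum_const, Finset.card_univ,
        Fintype.card_fin, nsmul_eq_mul, Finset.mul_sum]
    rw [hexp] at hdvd
    have h1 : (h : ℤ) * a = Nat.gcd d h - d * Nat.gcdA d h := by rw [hbez]; ring
    have h2 : (d : ℤ) ∣ (Nat.gcd d h : ℤ) + ∑ i, ((z i).1 : ℤ) := by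
      have h3 : (Nat.gcd d h : ℤ) + ∑ i, ((z i).1 : ℤ)
          = ((h : ℤ) * a + ∑ i, ((z i).1 : ℤ) + d * ∑ i, ((z i).2 : ℤ))
            + d * (Nat.gcdA d h - ∑ i, ((z i).2 : ℤ)) := by rw [h1]; ring
      rw [h3]
      exact dvd_add hdvd (dvd_mul_right _ _)
    have h4 : ∑ i, ((z i).1 : ℤ) ≤ (h : ℤ) * (l - 1) := by
      have : ∑ i : Fin h, ((z i).1 : ℤ) ≤ ∑ i : Fin h, ((l : ℤ) - 1) := by
        apply Finset.sum_le_sum
        intro i _
        have := hz1 i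
        omega
      rw [Finset.sum_const, Finset.card_univ, Fintype.card_fin, nsmul_eq_mul] at this
      exact this
    have h5 : (0 : ℤ) ≤ ∑ i, ((z i).1 : ℤ) := Finset.sum_nonneg (fun i _ => Int.natCast_nonneg _)
    have h6 := Int.le_of_dvd (by linarith) h2
    linarith
  · rw [Finset.card_image_of_injOn, Finset.card_product, Finset.card_range, Finset.card_range]
    intro x hx y hy hxy
    rw [Finset.mem_coe, Finset.mem_product, Finset.mem_range, Finset.mem_range] at hx hy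
    have h1 : ((a + x.1 + d * x.2 : ℤ) : ZMod n) = ((a + y.1 + d * y.2 : ℤ) : ZMod n) := hxy
    rw [ZMod.intCast_eq_intCast_iff_dvd_sub] at h1
    have h2 : (a + y.1 + d * y.2 : ℤ) - (a + x.1 + d * x.2 : ℤ)
        = ((y.1 : ℤ) - x.1) + d * ((y.2 : ℤ) - x.2) := by ring
    rw [h2, ← hna] at h1
    have hdZ : (0 : ℤ) < d := by exact_mod_cast hd0
    have h3 : (d : ℤ) ∣ (y.1 : ℤ) - x.1 := by
      have h4 := (dvd_mul_right (d : ℤ) _).trans h1
      exact (dvd_add_left (dvd_mul_right (d : ℤ) _)).mp h4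
    have h5 : (y.1 : ℤ) - x.1 = 0 := by
      apply Int.eq_zero_of_abs_lt_dvd h3
      rw [abs_lt]
      have := hx.1; have := hy.1
      constructor <;> omega
    rw [h5, zero_add] at h1
    have h6 : ((n / d : ℕ) : ℤ) ∣ (y.2 : ℤ) - x.2 := (mul_dvd_mul_iff_left hdZ.ne').mp h1
    have h7 : (y.2 : ℤ) - x.2 = 0 := by
      apply Int.eq_zero_of_abs_lt_dvd h6
      rw [abs_lt]
      have := hx.2; have := hy.2
      constructor <;> omega
    exact Prod.ext (by omega) (by omega)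

/-- Lower bound. -/
theorem lower {n h : ℕ} (hh : 0 < h) (hn : 0 < n) {x : ℤ} (hx : x ∈ divisorValues h n h) :
    ∃ k ∈ sizes n h, x = (k : ℤ) := by
  obtain ⟨d, hd0, hdn, rfl⟩ := hx
  rw [value_eq]
  have hhZ : (1 : ℤ) ≤ h := by exact_mod_cast hh
  have hlow := val_lower (h := h) (d := d) hh 0
  have hup := val_upper (h := h) (d := d) hh 0
  rw [Int.zero_emod, sub_zero] at hlow hup
  have hg : (Nat.gcd d h : ℤ) ≤ d := by exact_mod_cast Nat.gcd_le_left h hd0
  have hv0 : 0 ≤ val h d 0 := by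
    by_contra hneg
    push Not at hneg
    have hv : val h d 0 ≤ -1 := by omega
    nlinarith
  obtain ⟨l, hl⟩ := Int.eq_ofNat_of_zero_le hv0
  rcases Nat.eq_zero_or_pos l with h0 | hpos
  · refine ⟨0, ⟨∅, ?_, Finset.card_empty⟩, ?_⟩
    · rintro ⟨a, ha, _⟩
      exact absurd (ha ⟨0, hh⟩) (Finset.notMem_empty _)
    · rw [hl, h0]; simp
  · rw [hl] at hup
    obtain ⟨A, hA, hcard⟩ := construct hh hn hd0 hdn hpos (by
      have e : (h : ℤ) * (l - 1) = h * l - h := by ring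
      rw [e]
      linarith)
    exact ⟨l * (n / d), ⟨A, hA, hcard⟩, by rw [hl]; push_cast; rfl⟩

/-- **Main theorem.** For all positive integers `h`, `n`: `τ(ℤ_n,h) = v_h(n,h)`; here both `τ` and
`v` are attained maxima. -/
theorem result (h n : ℕ) (hh : 0 < h) (hn : 0 < n) :
    IsGreatest (sizes n h) (tau n h) ∧ IsGreatest (divisorValues h n h) (v h n h) ∧
      (tau n h : ℤ) = v h n h := by
  classical
  have : NeZero n := ⟨hn.ne'⟩
  have hbdd : BddAbove (sizes n h) := by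
    refine ⟨n, ?_⟩
    rintro k ⟨A, _, rfl⟩
    have := Finset.card_le_univ A
    rwa [ZMod.card] at this
  have hne : (sizes n h).Nonempty := by
    refine ⟨0, ∅, ?_, Finset.card_empty⟩
    rintro ⟨a, ha, _⟩
    exact absurd (ha ⟨0, hh⟩) (Finset.notMem_empty _)
  have hT : IsGreatest (sizes n h) (tau n h) :=
    ⟨Nat.sSup_mem hne hbdd, fun k hk => le_csSup hbdd hk⟩
  have hV : IsGreatest (divisorValues h n h) (tau n h : ℤ) := by
    constructor
    · obtain ⟨x, hx, hle⟩ := upper hh hn hT.1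
      obtain ⟨k, hk, hxk⟩ := lower hh hn hx
      have h1 : k ≤ tau n h := hT.2 hk
      have h2 : (tau n h : ℤ) = x := by
        apply le_antisymm hle
        rw [hxk]; exact_mod_cast h1
      rw [h2]; exact hx
    · intro x hx
      obtain ⟨k, hk, rfl⟩ := lower hh hn hx
      exact_mod_cast hT.2 hk
  have hv : v h n h = (tau n h : ℤ) := hV.csSup_eq
  refine ⟨hT, ?_, hv.symm⟩
  rw [hv]
  exact hV

end Pool.Agent.Results.MP_7a9645_co.FullQ1
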